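import Pool.Agent.Lib.MP_263316_co.HOOK.REL

/-!
MP_263316_co, level two: extraction of the coefficients with exactly one part larger than two.
-/

set_option autoImplicit false

namespace Pool.Agent.HOOK

open Finset Pool.Agent.SWC Pool.Agent.SWK

/-- generating function of the coefficients whose only part larger than two is `d` -/
def Cf {R : Type} [CommRing R] {n : ℕ} (a : n.Partition → R) (d : ℕ) (p r : R) : R :=
  ∑ μ : n.Partition, if μ.parts.filter (fun k => 2 < k) = {d} then
    a μ * (p ^ μ.parts.count 1 * r ^ μ.parts.count 2) else 0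

/-- generating function of the coefficients with no part larger than two -/
def C0 {R : Type} [CommRing R] {n : ℕ} (a : n.Partition → R) (p r : R) : R :=
  ∑ μ : n.Partition, if μ.parts.filter (fun k => 2 < k) = 0 then
    a μ * (p ^ μ.parts.count 1 * r ^ μ.parts.count 2) else 0

theorem prod_split3 {A : Type} [CommRing A] (F : ℕ → A) (l : Multiset ℕ)
    (hl : ∀ d ∈ l, 0 < d) : (l.map F).prod =
      ((l.filter (fun k => 2 < k)).map F).prod * (F 1 ^ l.count 1 * F 2 ^ l.count 2) := by
  induction l using Multiset.induction_on with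
  | empty => simp
  | cons d l ih =>
    have ih' := ih (fun e he => hl e (Multiset.mem_cons_of_mem he))
    have hd := hl d (Multiset.mem_cons_self d l)
    rw [Multiset.map_cons, Multiset.prod_cons, ih']
    by_cases h2 : 2 < d
    · rw [Multiset.filter_cons_of_pos _ h2, Multiset.map_cons, Multiset.prod_cons,
        Multiset.count_cons_of_ne (by omega), Multiset.count_cons_of_ne (by omega), mul_assoc]
    · rw [Multiset.filter_cons_of_neg _ h2]
      by_cases h1 : d = 1
      · subst h1
        rw [Multiset.count_cons_self, Multiset.count_cons_of_ne (by omega)]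
        ring
      · have h3 : d = 2 := by omega
        subst h3
        rw [Multiset.count_cons_self, Multiset.count_cons_of_ne (by omega)]
        ring

theorem sum_split3 (l : Multiset ℕ) (hl : ∀ d ∈ l, 0 < d) : l.sum =
      (l.filter (fun k => 2 < k)).sum + (l.count 1 + 2 * l.count 2) := by
  induction l using Multiset.induction_on with
  | empty => simp
  | cons d l ih =>
    have ih' := ih (fun e he => hl e (Multiset.mem_cons_of_mem he))
    have hd := hl d (Multiset.mem_cons_self d l)
    rw [Multiset.sum_cons, ih']
    by_cases h2 : 2 < d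
    · rw [Multiset.filter_cons_of_pos _ h2, Multiset.sum_cons,
        Multiset.count_cons_of_ne (by omega), Multiset.count_cons_of_ne (by omega), add_assoc]
    · rw [Multiset.filter_cons_of_neg _ h2]
      by_cases h1 : d = 1
      · subst h1
        rw [Multiset.count_cons_self, Multiset.count_cons_of_ne (by omega)]
        ring
      · have h3 : d = 2 := by omega
        subst h3
        rw [Multiset.count_cons_self, Multiset.count_cons_of_ne (by omega)]
        ring

private theorem big_mono {R : Type} [CommRing R] (m : ℕ) (z p r : R) (F : ℕ → Polynomial R)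
    (hm0 : F m = Polynomial.C z) (hm1 : F (m + 1) = Polynomial.C (z * p) * Polynomial.X)
    (hm2 : F (m + 2) = Polynomial.C (z * r) * Polynomial.X ^ 2)
    (h4 : ∀ d, 2 < d → d ≠ m → d ≠ m + 1 → d ≠ m + 2 → F d = 0) (s : Multiset ℕ)
    (hs : ∀ d ∈ s, 2 < d) : (s.map F).prod = 0 ∨ ∃ (c : R) (e : ℕ),
      (s.map F).prod = Polynomial.C c * Polynomial.X ^ e ∧ s.sum = m * Multiset.card s + e := by
  induction s using Multiset.induction_on with
  | empty => exact Or.inr ⟨1, 0, by simp, by simp⟩
  | cons d s ih =>
    rcases ih (fun e he => hs e (Multiset.mem_cons_of_mem he)) with h0 | ⟨c, e, h1, h2⟩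
    · left
      rw [Multiset.map_cons, Multiset.prod_cons, h0, mul_zero]
    · rw [Multiset.map_cons, Multiset.prod_cons, Multiset.sum_cons, Multiset.card_cons, h1, h2]
      by_cases d0 : d = m
      · right
        refine ⟨z * c, e, ?_, ?_⟩
        · rw [d0, hm0, map_mul]; ring
        · rw [d0]; ring
      · by_cases d1 : d = m + 1
        · right
          refine ⟨z * p * c, e + 1, ?_, ?_⟩
          · rw [d1, hm1, map_mul _ (z * p) c]; ring
          · rw [d1]; ring
        · by_cases d2 : d = m + 2
          · right
            refine ⟨z * r * c, e + 2, ?_, ?_⟩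
            · rw [d2, hm2, map_mul _ (z * r) c]; ring
            · rw [d2]; ring
          · left
            rw [h4 d (hs d (Multiset.mem_cons_self d s)) d0 d1 d2, zero_mul]

/-- extraction: one part larger than two -/
theorem hook2_sum {R : Type} [CommRing R] (n m k : ℕ) (hm : 3 ≤ m) (hn : n = m + k) (z p r : R)
    (F : ℕ → Polynomial R) (h1 : F 1 = Polynomial.C p * Polynomial.X)
    (h2 : F 2 = Polynomial.C r * Polynomial.X ^ 2)
    (hm0 : F m = Polynomial.C z) (hm1 : F (m + 1) = Polynomial.C (z * p) * Polynomial.X)
    (hm2 : F (m + 2) = Polynomial.C (z * r) * Polynomial.X ^ 2)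
    (h4 : ∀ d, 2 < d → d ≠ m → d ≠ m + 1 → d ≠ m + 2 → F d = 0) (a : n.Partition → R) :
    (∑ μ : n.Partition, Polynomial.C (a μ) * (μ.parts.map F).prod).coeff k =
      z * (Cf a m p r + p * Cf a (m + 1) p r + r * Cf a (m + 2) p r) := by
  classical
  rw [Polynomial.finsetSum_coeff]
  unfold Cf
  rw [Finset.mul_sum, Finset.mul_sum, ← Finset.sum_add_distrib, ← Finset.sum_add_distrib,
    Finset.mul_sum]
  refine Finset.sum_congr rfl fun μ _ => ?_
  have hpos : ∀ d ∈ μ.parts, 0 < d := fun d hd => μ.parts_pos hd
  have hbig : ∀ d ∈ μ.parts.filter (fun k => 2 < k), 2 < d := fun d hd =>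
    (Multiset.mem_filter.mp hd).2
  have hsum := sum_split3 μ.parts hpos
  rw [μ.parts_sum] at hsum
  rw [prod_split3 F μ.parts hpos, Polynomial.coeff_C_mul]
  set s := μ.parts.filter (fun k => 2 < k) with hsdef
  set α := μ.parts.count 1 with hα
  set β := μ.parts.count 2 with hβ
  have hF : F 1 ^ α * F 2 ^ β = Polynomial.C (p ^ α * r ^ β) * Polynomial.X ^ (α + 2 * β) := by
    rw [h1, h2, map_mul, map_pow, map_pow]
    ring
  rw [hF]
  have hco : ∀ (c : R) (e : ℕ), (Polynomial.C c * Polynomial.X ^ e *
      (Polynomial.C (p ^ α * r ^ β) * Polynomial.X ^ (α + 2 * β)) : Polynomial R).coeff k =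
      if k = e + (α + 2 * β) then c * (p ^ α * r ^ β) else 0 := by
    intro c e
    have : (Polynomial.C c * Polynomial.X ^ e *
      (Polynomial.C (p ^ α * r ^ β) * Polynomial.X ^ (α + 2 * β)) : Polynomial R) =
      Polynomial.C (c * (p ^ α * r ^ β)) * Polynomial.X ^ (e + (α + 2 * β)) := by
      rw [map_mul _ c]; ring
    rw [this, Polynomial.coeff_C_mul, Polynomial.coeff_X_pow]
    split_ifs <;> ring
  rcases big_mono m z p r F hm0 hm1 hm2 h4 s hbig with h0 | ⟨c, e, hp, hse⟩
  · have hn0 : s ≠ {m} ∧ s ≠ {m + 1} ∧ s ≠ {m + 2} ∨ (z = 0 ∨ (s = {m + 1} ∧ z * p = 0) ∨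
        (s = {m + 2} ∧ z * r = 0)) := by
      by_cases e0 : s = {m}
      · right; left
        rw [e0, Multiset.map_singleton, Multiset.prod_singleton, hm0] at h0
        exact Polynomial.C_eq_zero.mp h0
      · by_cases e1 : s = {m + 1}
        · right; right; left
          refine ⟨e1, ?_⟩
          rw [e1, Multiset.map_singleton, Multiset.prod_singleton, hm1] at h0
          have := congrArg (fun p => Polynomial.coeff p 1) h0
          simpa using this
        · by_cases e2 : s = {m + 2}
          · right; right; right
            refine ⟨e2, ?_⟩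
            rw [e2, Multiset.map_singleton, Multiset.prod_singleton, hm2] at h0
            have := congrArg (fun p => Polynomial.coeff p 2) h0
            rw [Polynomial.coeff_C_mul, Polynomial.coeff_X_pow, if_pos rfl, mul_one,
              Polynomial.coeff_zero] at this
            exact this
          · exact Or.inl ⟨e0, e1, e2⟩
    rw [h0, zero_mul, Polynomial.coeff_zero, mul_zero]
    rcases hn0 with ⟨e0, e1, e2⟩ | hz | ⟨e1, hz⟩ | ⟨e2, hz⟩
    · rw [if_neg e0, if_neg e1, if_neg e2]; ring
    · rw [hz, zero_mul]
    · rw [if_neg (by rw [e1]; simp), if_pos e1, if_neg (by rw [e1]; simp)]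
      linear_combination (-(a μ * (p ^ α * r ^ β))) * hz
    · rw [if_neg (by rw [e2]; simp), if_neg (by rw [e2]; simp), if_pos e2]
      linear_combination (-(a μ * (p ^ α * r ^ β))) * hz
  · by_cases hc : Multiset.card s = 1
    · obtain ⟨d, hd⟩ := Multiset.card_eq_one.mp hc
      have hsd : s.sum = d := by rw [hd, Multiset.sum_singleton]
      have hF1 : (s.map F).prod = F d := by
        rw [hd, Multiset.map_singleton, Multiset.prod_singleton]
      rw [hF1]
      rw [hsd] at hsum
      have hne : ∀ d', s = {d'} ↔ d = d' := by
        intro d'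
        rw [hd, Multiset.singleton_inj]
      have h2d : 2 < d := hbig d (by rw [hd]; exact Multiset.mem_singleton_self d)
      by_cases d0 : d = m
      · have hco' := hco z 0
        rw [pow_zero, mul_one] at hco'
        rw [d0, hm0, hco', if_pos (by omega), if_pos ((hne m).mpr d0),
          if_neg (by rw [hne]; omega), if_neg (by rw [hne]; omega)]
        ring
      · by_cases d1 : d = m + 1
        · have hco' := hco (z * p) 1
          rw [pow_one] at hco'
          rw [d1, hm1, hco', if_pos (by omega), if_neg (by rw [hne]; omega),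
            if_pos ((hne (m + 1)).mpr d1), if_neg (by rw [hne]; omega)]
          ring
        · by_cases d2 : d = m + 2
          · rw [d2, hm2, hco (z * r) 2, if_pos (by omega), if_neg (by rw [hne]; omega),
              if_neg (by rw [hne]; omega), if_pos ((hne (m + 2)).mpr d2)]
            ring
          · rw [h4 d h2d d0 d1 d2, if_neg (by rw [hne]; omega), if_neg (by rw [hne]; omega),
              if_neg (by rw [hne]; omega), zero_mul, Polynomial.coeff_zero]
            ring
    · have hne : ∀ d', s ≠ {d'} := by
        intro d' h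
        rw [h] at hc
        exact hc (Multiset.card_singleton d')
      rw [hp, hco, if_neg ?_, if_neg (hne _), if_neg (hne _), if_neg (hne _)]
      · ring
      · intro hk
        apply hc
        have h5 : m * Multiset.card s = m * 1 := by
          have : m * Multiset.card s + k = m + k := by
            rw [← hn, hsum, hse, hk]
            ring
          omega
        exact Nat.eq_of_mul_eq_mul_left (by omega) h5

/-- extraction: no part larger than two -/
theorem hook0_sum {R : Type} [CommRing R] (n : ℕ) (p r : R)
    (F : ℕ → R) (h1 : F 1 = p) (h2 : F 2 = r) (h4 : ∀ d, 2 < d → F d = 0)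
    (a : n.Partition → R) :
    (∑ μ : n.Partition, a μ * (μ.parts.map F).prod) = C0 a p r := by
  classical
  unfold C0
  refine Finset.sum_congr rfl fun μ _ => ?_
  have hpos : ∀ d ∈ μ.parts, 0 < d := fun d hd => μ.parts_pos hd
  rw [prod_split3 F μ.parts hpos, h1, h2]
  by_cases h0 : μ.parts.filter (fun k => 2 < k) = 0
  · rw [if_pos h0, h0, Multiset.map_zero, Multiset.prod_zero, one_mul]
  · rw [if_neg h0]
    obtain ⟨d, hd⟩ := Multiset.exists_mem_of_ne_zero h0
    have : ((μ.parts.filter (fun k => 2 < k)).map F).prod = 0 := by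
      apply Multiset.prod_eq_zero
      rw [Multiset.mem_map]
      exact ⟨d, hd, h4 d (Multiset.mem_filter.mp hd).2⟩
    rw [this, zero_mul, mul_zero]

end Pool.Agent.HOOK
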