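import Pool.Agent.Lib.MP_263316_co.LV2.Spec

/-!
MP_263316_co, project LV2, task EXT (second version).
-/

set_option autoImplicit false

namespace Pool.Agent.LV2

open Finset Pool.Agent.SWC Pool.Agent.SWK Pool.Agent.HOOK

namespace EXTb

theorem br_sum (v : ℂ) (hv : v ≠ 0) (hv1 : v - v⁻¹ ≠ 0) (m : ℕ) :
    br v m = ∑ i ∈ range m, v ^ (2 * (i : ℤ) - m + 1) := by
  unfold br
  rw [div_eq_iff hv1, Finset.sum_mul]
  have h := Finset.sum_range_sub (fun i : ℕ => v ^ (2 * (i : ℤ) - m)) m
  have e : ∀ i ∈ range m, v ^ (2 * (i : ℤ) - m + 1) * (v - v⁻¹) =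
      v ^ (2 * ((i + 1 : ℕ) : ℤ) - m) - v ^ (2 * (i : ℤ) - m) := by
    intro i _
    have h1 : v ^ (2 * ((i + 1 : ℕ) : ℤ) - m) = v ^ (2 * (i : ℤ) - m + 1) * v := by
      rw [← zpow_add_one₀ hv]
      congr 1
      push_cast
      ring
    have h2 : v ^ (2 * (i : ℤ) - m + 1) * v⁻¹ = v ^ (2 * (i : ℤ) - m) := by
      rw [zpow_add_one₀ hv, mul_assoc, mul_inv_cancel₀ hv, mul_one]
    rw [h1, mul_sub, h2]
  rw [Finset.sum_congr rfl e, h]
  congr 2
  · push_cast; ring
  · push_cast; ring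

theorem rep (v : ℂ) (E : ℕ) (x : ℂ) (hx : x ∈ SC v E) :
    ∃ s : Multiset ℕ, (∀ m ∈ s, 1 ≤ m ∧ (m + 1 + E) % 2 = 0) ∧
      x = (s.map (fun m : ℕ => br v m)).sum := by
  unfold SC at hx
  induction hx using AddSubmonoid.closure_induction with
  | mem x hx =>
    obtain ⟨m, hm, rfl⟩ := hx
    rcases Nat.eq_zero_or_pos m with rfl | h
    · refine ⟨0, by simp, ?_⟩
      simp [br]
    · refine ⟨{m}, ?_, by simp⟩
      intro k hk
      rw [Multiset.mem_singleton] at hk
      subst hk
      exact ⟨h, hm⟩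
  | zero => exact ⟨0, by simp, by simp⟩
  | add x y _ _ hx hy =>
    obtain ⟨s, hs, rfl⟩ := hx
    obtain ⟨t, ht, rfl⟩ := hy
    refine ⟨s + t, ?_, by rw [Multiset.map_add, Multiset.sum_add]⟩
    intro m hm
    rcases Multiset.mem_add.mp hm with h | h
    · exact hs m h
    · exact ht m h

/-- the polynomial `X^(K+E) {m}` -/
noncomputable def G (K E m : ℕ) : Polynomial ℤ :=
  ∑ i ∈ range m, Polynomial.X ^ (K + E + 1 - m + 2 * i)

theorem G_eval (v : ℂ) (hv : v ≠ 0) (hv1 : v - v⁻¹ ≠ 0) (K E m : ℕ) (hm : m ≤ K) :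
    Polynomial.aeval v (G K E m) = v ^ (K + E) * br v m := by
  unfold G
  rw [br_sum v hv hv1, map_sum, Finset.mul_sum]
  refine Finset.sum_congr rfl fun i _ => ?_
  rw [map_pow, Polynomial.aeval_X, ← zpow_natCast, ← zpow_natCast, ← zpow_add₀ hv]
  congr 1
  have : ((K + E + 1 - m + 2 * i : ℕ) : ℤ) = (K : ℤ) + E + 1 - m + 2 * i := by
    push_cast [Nat.cast_sub (show m ≤ K + E + 1 by omega)]
    ring
  rw [this]
  push_cast
  ring

theorem G_coeff_nonneg (K E m j : ℕ) : 0 ≤ (G K E m).coeff j := by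
  unfold G
  rw [Polynomial.finsetSum_coeff]
  refine Finset.sum_nonneg fun i _ => ?_
  rw [Polynomial.coeff_X_pow]
  split_ifs <;> norm_num

theorem G_coeff_pos (K E m : ℕ) (hm : 1 ≤ m) : 1 ≤ (G K E m).coeff (K + E + 1 - m) := by
  unfold G
  rw [Polynomial.finsetSum_coeff]
  obtain ⟨k, rfl⟩ : ∃ k, m = k + 1 := ⟨m - 1, by omega⟩
  rw [Finset.sum_range_succ', mul_zero, add_zero, Polynomial.coeff_X_pow, if_pos rfl]
  have : 0 ≤ ∑ i ∈ range k, (Polynomial.X ^ (K + E + 1 - (k + 1) + 2 * (i + 1)) :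
      Polynomial ℤ).coeff (K + E + 1 - (k + 1)) := by
    refine Finset.sum_nonneg fun i _ => ?_
    rw [Polynomial.coeff_X_pow]
    split_ifs <;> norm_num
  linarith

end EXTb

open EXTb in
theorem tEXTb : S_EXT := by
  intro v hinj E p hp
  have hv : v ≠ 0 := by
    intro h
    have h1 : Polynomial.aeval v (Polynomial.X : Polynomial ℤ) =
        Polynomial.aeval v (0 : Polynomial ℤ) := by
      rw [Polynomial.aeval_X, map_zero, h]
    exact Polynomial.X_ne_zero (hinj h1)
  have hv1 : v - v⁻¹ ≠ 0 := by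
    intro h
    have h0 : v ^ 2 = 1 := by
      have : v * (v - v⁻¹) = 0 := by rw [h, mul_zero]
      rw [mul_sub, mul_inv_cancel₀ hv] at this
      linear_combination this
    have h1 : Polynomial.aeval v (Polynomial.X ^ 2 : Polynomial ℤ) =
        Polynomial.aeval v (1 : Polynomial ℤ) := by
      rw [map_pow, Polynomial.aeval_X, map_one, h0]
    have h2 := congrArg (fun p : Polynomial ℤ => p.coeff 0) (hinj h1)
    simp at h2
  obtain ⟨s, hs, hx⟩ := rep v E _ hp
  set K := s.sum with hK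
  have hmK : ∀ m ∈ s, m ≤ K := fun m hm => Multiset.le_sum_of_mem hm
  -- the polynomial identity
  have hid : Polynomial.X ^ K * Polynomial.expand ℤ 2 p = (s.map (G K E)).sum := by
    apply hinj
    have hsum : Polynomial.aeval v (s.map (G K E)).sum =
        v ^ (K + E) * (s.map (fun m : ℕ => br v m)).sum := by
      rw [map_multiset_sum, Multiset.map_map, ← Multiset.sum_map_mul_left]
      refine congrArg Multiset.sum (Multiset.map_congr rfl fun m hm => ?_)
      exact G_eval v hv hv1 K E m (hmK m hm)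
    rw [hsum, ← hx, map_mul, map_pow, Polynomial.aeval_X, Polynomial.expand_aeval, pow_add]
    have h3 : v ^ E * v ^ (-(E : ℤ)) = 1 := by
      rw [zpow_neg, zpow_natCast, mul_inv_cancel₀ (pow_ne_zero E hv)]
    linear_combination (-(v ^ K * Polynomial.aeval (v ^ 2) p)) * h3
  have hcoef : ∀ j, ((s.map (G K E)).sum).coeff j = (s.map (fun m => (G K E m).coeff j)).sum := by
    intro j
    have := map_multiset_sum (Polynomial.lcoeff ℤ j) (s.map (G K E))
    rw [Multiset.map_map] at this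
    exact this
  have hmE : ∀ m ∈ s, m ≤ E + 1 := by
    intro m hm
    by_contra hcon
    have h1 := hmK m hm
    have h2 : (Polynomial.X ^ K * Polynomial.expand ℤ 2 p).coeff (K + E + 1 - m) = 0 := by
      rw [Polynomial.coeff_X_pow_mul', if_neg (by omega)]
    rw [hid, hcoef] at h2
    obtain ⟨t, ht⟩ := Multiset.exists_cons_of_mem hm
    rw [ht, Multiset.map_cons, Multiset.sum_cons] at h2
    have h3 := G_coeff_pos K E m (hs m hm).1
    have h4 : 0 ≤ (t.map (fun m' => (G K E m').coeff (K + E + 1 - m))).sum := by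
      refine Multiset.sum_nonneg fun x hx => ?_
      obtain ⟨m', _, rfl⟩ := Multiset.mem_map.mp hx
      exact G_coeff_nonneg K E m' _
    linarith
  -- the candidate
  have hp' : p = (s.map (fun m => Polynomial.X ^ ((E + 1 - m) / 2) *
      qn (Polynomial.X : Polynomial ℤ) m)).sum := by
    apply Polynomial.expand_injective (R := ℤ) (n := 2) (by norm_num)
    have hX : (Polynomial.X ^ K : Polynomial ℤ) ≠ 0 := pow_ne_zero K Polynomial.X_ne_zero
    apply mul_left_cancel₀ hX
    rw [hid, map_multiset_sum, Multiset.map_map, ← Multiset.sum_map_mul_left]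
    refine congrArg Multiset.sum (Multiset.map_congr rfl fun m hm => ?_)
    rw [Function.comp_apply, map_mul, map_pow, Polynomial.expand_X]
    unfold G qn
    rw [map_sum, Finset.mul_sum, Finset.mul_sum]
    refine Finset.sum_congr rfl fun i _ => ?_
    rw [map_pow, Polynomial.expand_X, ← pow_mul, ← pow_mul, ← pow_add, ← pow_add]
    congr 1
    have h1 := hmE m hm
    have h2 := (hs m hm).2
    omega
  rw [hp']
  refine AddSubmonoid.multiset_sum_mem _ _ fun x hx => ?_
  obtain ⟨m, hm, rfl⟩ := Multiset.mem_map.mp hx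
  refine AddSubmonoid.subset_closure ⟨(E + 1 - m) / 2, m, ?_, rfl⟩
  have h1 := hmE m hm
  have h2 := (hs m hm).2
  omega

end Pool.Agent.LV2
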