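import Pool.Agent.Lib.MP_263316_co.HK2.EXTR

/-!
MP_263316_co, level two: the relations for the coefficients with one part larger than two
(two free letters and the `m`-th roots of unity).
-/

set_option autoImplicit false

namespace Pool.Agent.HOOK

open Finset Pool.Agent.SWC Pool.Agent.SWK

/-- sum over the ordered pairs of disjoint stable sets with `k` elements together -/
def sk2 {R : Type} [CommRing R] (m : ℕ → ℕ) (q y1 y2 : R) (U : Finset ℕ) (k : ℕ) : R :=
  ∑ T ∈ U.powerset.filter (fun T => ind m T), y1 ^ T.card * q ^ ea m U T *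
    ∑ T' ∈ (U \ T).powerset.filter (fun T' => ind m T' ∧ T.card + T'.card = k),
      y2 ^ T'.card * q ^ ea m (U \ T) T' * Pm m q ((U \ T) \ T')

theorem sk2_map {R R' : Type} [CommRing R] [CommRing R'] (φ : R →+* R') (m : ℕ → ℕ)
    (q y1 y2 : R) (U : Finset ℕ) (k : ℕ) :
    φ (sk2 m q y1 y2 U k) = sk2 m (φ q) (φ y1) (φ y2) U k := by
  unfold sk2
  rw [map_sum]
  refine Finset.sum_congr rfl fun T _ => ?_
  rw [map_mul, map_mul, map_pow, map_pow, map_sum]
  congr 1
  refine Finset.sum_congr rfl fun T' _ => ?_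
  rw [map_mul, map_mul, map_pow, map_pow, Pm_map]

theorem Cf_map {R R' : Type} [CommRing R] [CommRing R'] (φ : R →+* R') {n : ℕ}
    (a : n.Partition → R) (d : ℕ) (p r : R) :
    φ (Cf a d p r) = Cf (fun μ => φ (a μ)) d (φ p) (φ r) := by
  unfold Cf
  rw [map_sum]
  refine Finset.sum_congr rfl fun μ _ => ?_
  split_ifs
  · rw [map_mul, map_mul, map_pow, map_pow]
  · exact map_zero φ

theorem C0_map {R R' : Type} [CommRing R] [CommRing R'] (φ : R →+* R') {n : ℕ}
    (a : n.Partition → R) (p r : R) :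
    φ (C0 a p r) = C0 (fun μ => φ (a μ)) (φ p) (φ r) := by
  unfold C0
  rw [map_sum]
  refine Finset.sum_congr rfl fun μ _ => ?_
  split_ifs
  · rw [map_mul, map_mul, map_pow, map_pow]
  · exact map_zero φ

theorem es_cons' (hESZ : S_ESZ) {A : Type} [CommRing A] {N : ℕ} (y : A) (x : Fin N → A) (d : ℕ) :
    es (Fin.cons y x : Fin (N + 1) → A) (d + 1) = es x (d + 1) + y * es x d := by
  have h := hESZ.1 A N (Fin.cons y x : Fin (N + 1) → A) ((d : ℤ) + 1)
  have hs : (fun k : Fin N => (Fin.cons y x : Fin (N + 1) → A) k.succ) = x := by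
    funext k; rfl
  rw [hs, Fin.cons_zero] at h
  unfold esz at h
  rw [if_neg (by omega), if_neg (by omega), if_neg (by omega),
    show ((d : ℤ) + 1).toNat = d + 1 by omega, show ((d : ℤ) + 1 - 1).toNat = d by omega] at h
  exact h

theorem es_cons2 (hESZ : S_ESZ) {A : Type} [CommRing A] {N : ℕ} (b c : A) (x : Fin N → A)
    (d : ℕ) : es (Fin.cons b (Fin.cons c x) : Fin (N + 1 + 1) → A) (d + 2) =
      es x (d + 2) + (b + c) * es x (d + 1) + b * c * es x d := by
  rw [show d + 2 = (d + 1) + 1 from rfl, es_cons' hESZ b, es_cons' hESZ c, es_cons' hESZ c]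
  ring

theorem es_cons2_one (hESZ : S_ESZ) {A : Type} [CommRing A] {N : ℕ} (b c : A) (x : Fin N → A) :
    es (Fin.cons b (Fin.cons c x) : Fin (N + 1 + 1) → A) 1 = es x 1 + (b + c) * es x 0 := by
  have h1 := es_cons' hESZ b (Fin.cons c x : Fin (N + 1) → A) 0
  have h2 := es_cons' hESZ c x 0
  have h3 : es (Fin.cons c x : Fin (N + 1) → A) 0 = 1 := by simp [es]
  have h4 : es x 0 = 1 := by simp [es]
  rw [zero_add] at h1 h2
  rw [h1, h2, h3, h4]
  ring

theorem es_zero2 {R : Type} [CommRing R] {N : ℕ} (x : Fin N → R) : es x 0 = 1 := by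
  simp [es]

theorem eval_XX2 (N : ℕ) (g : ℕ → ℕ) (U : Finset ℕ) {A : Type} [CommRing A]
    (ψ : Polynomial ℤ →+* A) (x : Fin N → A) (n : ℕ) (a : n.Partition → Polynomial ℤ)
    (ha : XX g (qq N) (xx N) U =
      ∑ μ : n.Partition, MvPolynomial.C (a μ) * (μ.parts.map (es (xx N))).prod) :
    XX g (ψ Polynomial.X) x U = ∑ μ : n.Partition, ψ (a μ) * (μ.parts.map (es x)).prod := by
  set φ : AN N →+* A := MvPolynomial.eval₂Hom ψ x with hφ
  have h1 : φ (XX g (qq N) (xx N) U) = XX g (ψ Polynomial.X) x U := by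
    have h := Z_map φ g (qq N) U (fun _ k => xx N k)
    have e1 : φ (qq N) = ψ Polynomial.X := by
      rw [hφ, qq, MvPolynomial.coe_eval₂Hom, MvPolynomial.eval₂_C]
    have e2 : ∀ k, φ (xx N k) = x k := fun k => by
      rw [hφ, xx, MvPolynomial.coe_eval₂Hom, MvPolynomial.eval₂_X]
    unfold XX
    rw [h, e1]
    simp only [e2]
  rw [← h1, ha, map_sum]
  refine Finset.sum_congr rfl fun μ _ => ?_
  rw [map_mul, map_multiset_prod, Multiset.map_map]
  congr 1
  · rw [hφ, MvPolynomial.coe_eval₂Hom, MvPolynomial.eval₂_C]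
  · refine congrArg Multiset.prod (Multiset.map_congr rfl fun d _ => ?_)
    rw [Function.comp_apply, es_map]
    congr 1
    funext k
    rw [hφ, xx, MvPolynomial.coe_eval₂Hom, MvPolynomial.eval₂_X]

/-- coefficient of the partition function at two scaled letters and a constant alphabet -/
theorem coeff_XX2 (hSPL : S_SPL) {R : Type} [CommRing R] {N : ℕ} (g : ℕ → ℕ) (U : Finset ℕ)
    (q y1 y2 : R) (x : Fin N → R) (k : ℕ) :
    (XX g (Polynomial.C q) (Fin.cons (Polynomial.C y1 * Polynomial.X)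
      (Fin.cons (Polynomial.C y2 * Polynomial.X) (fun k => Polynomial.C (x k))) :
        Fin (N + 1 + 1) → Polynomial R) U).coeff k =
    ∑ T ∈ U.powerset.filter (fun T => ind g T), y1 ^ T.card * q ^ ea g U T *
      ∑ T' ∈ (U \ T).powerset.filter (fun T' => ind g T' ∧ T.card + T'.card = k),
        y2 ^ T'.card * q ^ ea g (U \ T) T' * XX g q x ((U \ T) \ T') := by
  rw [hSPL (Polynomial R) (N + 1) g (Polynomial.C q) _ U, Polynomial.finsetSum_coeff]
  refine Finset.sum_congr rfl fun T _ => ?_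
  have hs : (fun k : Fin (N + 1) => (Fin.cons (Polynomial.C y1 * Polynomial.X)
      (Fin.cons (Polynomial.C y2 * Polynomial.X) (fun k => Polynomial.C (x k))) :
        Fin (N + 1 + 1) → Polynomial R) k.succ) =
      Fin.cons (Polynomial.C y2 * Polynomial.X) (fun k => Polynomial.C (x k)) := by
    funext k; rfl
  rw [hs, Fin.cons_zero, hSPL (Polynomial R) N g (Polynomial.C q) _ (U \ T)]
  have hs2 : (fun k : Fin N => (Fin.cons (Polynomial.C y2 * Polynomial.X)
      (fun k => Polynomial.C (x k)) : Fin (N + 1) → Polynomial R) k.succ) =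
      (fun k => Polynomial.C (x k)) := by
    funext k; rfl
  rw [hs2, Fin.cons_zero, Finset.mul_sum, Polynomial.finsetSum_coeff, Finset.mul_sum,
    Finset.sum_filter, Finset.sum_filter]
  refine Finset.sum_congr rfl fun T' _ => ?_
  have h2 : XX g (Polynomial.C q) (fun k => Polynomial.C (x k)) ((U \ T) \ T') =
      Polynomial.C (XX g q x ((U \ T) \ T')) :=
    (Z_map Polynomial.C g q ((U \ T) \ T') (fun _ k => x k)).symm
  have h3 : ((Polynomial.C y1 * Polynomial.X) ^ T.card * Polynomial.C q ^ ea g U T *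
      ((Polynomial.C y2 * Polynomial.X) ^ T'.card * Polynomial.C q ^ ea g (U \ T) T' *
        XX g (Polynomial.C q) (fun k => Polynomial.C (x k)) ((U \ T) \ T')) : Polynomial R) =
      Polynomial.C (y1 ^ T.card * q ^ ea g U T * (y2 ^ T'.card * q ^ ea g (U \ T) T' *
        XX g q x ((U \ T) \ T'))) * Polynomial.X ^ (T.card + T'.card) := by
    rw [h2]
    simp only [map_mul, map_pow]
    ring
  by_cases hi : ind g T'
  · rw [if_pos hi, h3, Polynomial.coeff_C_mul, Polynomial.coeff_X_pow]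
    by_cases hk : T.card + T'.card = k
    · rw [if_pos hk.symm, if_pos ⟨hi, hk⟩, mul_one]
    · rw [if_neg (fun h => hk h.symm), if_neg (fun h => hk h.2), mul_zero]
  · rw [if_neg hi, if_neg (fun h => hi h.1)]

/-- the relations over `ℂ[y1, y2]` -/
private theorem rel2C (hXF : XFc) (hSPL : S_SPL) (hESZ : S_ESZ) (g : ℕ → ℕ) (hg : Monotone g)
    (N n : ℕ) (U : Finset ℕ) (hU : U.card = n) (hnN : n ≤ N) (a : n.Partition → Polynomial ℤ)
    (ha : XX g (qq N) (xx N) U =
      ∑ μ : n.Partition, MvPolynomial.C (a μ) * (μ.parts.map (es (xx N))).prod)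
    (m k : ℕ) (hm : 3 ≤ m) (hk : 2 ≤ k) (hn : n = m + k) (q : ℂ) (hq0 : q ≠ 0) (hq1 : q ≠ 1)
    {A : Type} [CommRing A] (ι : ℂ →+* A) (y1 y2 : A) :
    Cf (fun μ => ι (Polynomial.aeval q (a μ))) m (y1 + y2) (y1 * y2) +
      (y1 + y2) * Cf (fun μ => ι (Polynomial.aeval q (a μ))) (m + 1) (y1 + y2) (y1 * y2) +
      y1 * y2 * Cf (fun μ => ι (Polynomial.aeval q (a μ))) (m + 2) (y1 + y2) (y1 * y2) =
    qn (ι q) m * sk2 g (ι q) y1 y2 U k := by
  obtain ⟨N', rfl⟩ : ∃ N', N = N' + 1 + 1 := ⟨N - 2, by omega⟩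
  obtain ⟨x, hx⟩ := exists_alph N' m (by omega) (by omega)
  set X' : Fin (N' + 1 + 1) → Polynomial A := Fin.cons (Polynomial.C y1 * Polynomial.X)
    (Fin.cons (Polynomial.C y2 * Polynomial.X) (fun k => Polynomial.C (ι (x k)))) with hX'
  set ψ : Polynomial ℤ →+* Polynomial A :=
    (Polynomial.C.comp ι).comp (Polynomial.aeval q : Polynomial ℤ →ₐ[ℤ] ℂ).toRingHom with hψ
  have hψX : ψ Polynomial.X = Polynomial.C (ι q) := by
    rw [hψ]
    change Polynomial.C (ι (Polynomial.aeval q Polynomial.X)) = _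
    rw [Polynomial.aeval_X]
  have h1 := eval_XX2 (N' + 1 + 1) g U ψ X' n a ha
  rw [hψX] at h1
  have h2 := congrArg (fun p => Polynomial.coeff p k) h1
  have hxe : ∀ d, es (fun k => (Polynomial.C (ι (x k)) : Polynomial A)) d =
      Polynomial.C (ι (if d = 0 then 1 else if d = m then -1 else 0)) := by
    intro d
    rw [← hx d]
    have := es_map (Polynomial.C.comp ι : ℂ →+* Polynomial A) x d
    exact this.symm
  have e1' : ∀ d, es X' (d + 2) = Polynomial.C (ι (if d + 2 = m then -1 else 0)) +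
      Polynomial.C (y1 + y2) * Polynomial.X *
        Polynomial.C (ι (if d + 1 = m then -1 else 0)) +
      Polynomial.C (y1 * y2) * Polynomial.X ^ 2 *
        Polynomial.C (ι (if d = 0 then 1 else if d = m then -1 else 0)) := by
    intro d
    rw [hX', es_cons2 hESZ, hxe, hxe, hxe, if_neg (show ¬ d + 2 = 0 by omega),
      if_neg (show ¬ d + 1 = 0 by omega)]
    rw [map_add, map_mul]
    ring
  have e1 : es X' 1 = Polynomial.C (y1 + y2) * Polynomial.X := by
    rw [hX', es_cons2_one hESZ, es_zero2, hxe, if_neg (show ¬ (1 : ℕ) = 0 by omega),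
      if_neg (show ¬ 1 = m by omega), map_zero, map_zero, map_add]
    ring
  have e2 : es X' 2 = Polynomial.C (y1 * y2) * Polynomial.X ^ 2 := by
    rw [show 2 = 0 + 2 from rfl, e1', if_neg (by omega), if_neg (by omega), if_pos rfl,
      map_zero, map_zero, map_one, map_one]
    ring
  have em0 : es X' m = Polynomial.C (-1) := by
    obtain ⟨m', rfl⟩ : ∃ m', m = m' + 2 := ⟨m - 2, by omega⟩
    rw [e1', if_pos rfl, if_neg (by omega), if_neg (by omega), if_neg (by omega), map_zero,
      map_zero, mul_zero, mul_zero, add_zero, add_zero, map_neg, map_one]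
  have em1 : es X' (m + 1) = Polynomial.C ((-1) * (y1 + y2)) * Polynomial.X := by
    obtain ⟨m', rfl⟩ : ∃ m', m = m' + 2 := ⟨m - 2, by omega⟩
    rw [show m' + 2 + 1 = m' + 1 + 2 from rfl, e1', if_neg (by omega), if_pos rfl,
      if_neg (by omega), if_neg (by omega)]
    simp only [map_zero, map_neg, map_one, map_mul]
    ring
  have em2 : es X' (m + 2) = Polynomial.C ((-1) * (y1 * y2)) * Polynomial.X ^ 2 := by
    rw [e1', if_neg (by omega), if_neg (by omega), if_neg (by omega), if_pos rfl]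
    simp only [map_zero, map_neg, map_one, map_mul]
    ring
  have e4 : ∀ d, 2 < d → d ≠ m → d ≠ m + 1 → d ≠ m + 2 → es X' d = 0 := by
    intro d h0 h1 h2 h3
    obtain ⟨d', rfl⟩ : ∃ d', d = d' + 2 := ⟨d - 2, by omega⟩
    rw [e1', if_neg (by omega), if_neg (by omega), if_neg (by omega), if_neg (by omega)]
    simp only [map_zero, mul_zero, add_zero]
  have h3 := hook2_sum n m k hm hn (-1) (y1 + y2) (y1 * y2) (es X') e1 e2 em0 em1 em2 e4
    (fun μ => ι (Polynomial.aeval q (a μ)))
  change (XX g (Polynomial.C (ι q)) X' U).coeff k =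
    (∑ μ : n.Partition, Polynomial.C (ι (Polynomial.aeval q (a μ))) *
      (μ.parts.map (es X')).prod).coeff k at h2
  rw [h3, hX', coeff_XX2 hSPL] at h2
  have h5 : ∑ T ∈ U.powerset.filter (fun T => ind g T), y1 ^ T.card * ι q ^ ea g U T *
      ∑ T' ∈ (U \ T).powerset.filter (fun T' => ind g T' ∧ T.card + T'.card = k),
        y2 ^ T'.card * ι q ^ ea g (U \ T) T' * XX g (ι q) (fun k => ι (x k)) ((U \ T) \ T') =
      - (qn (ι q) m * sk2 g (ι q) y1 y2 U k) := by
    unfold sk2
    rw [Finset.mul_sum, ← Finset.sum_neg_distrib]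
    refine Finset.sum_congr rfl fun T hT => ?_
    rw [Finset.mem_filter, Finset.mem_powerset] at hT
    have hin : ∑ T' ∈ (U \ T).powerset.filter (fun T' => ind g T' ∧ T.card + T'.card = k),
        y2 ^ T'.card * ι q ^ ea g (U \ T) T' * XX g (ι q) (fun k => ι (x k)) ((U \ T) \ T') =
        - (qn (ι q) m * ∑ T' ∈ (U \ T).powerset.filter (fun T' => ind g T' ∧ T.card + T'.card = k),
          y2 ^ T'.card * ι q ^ ea g (U \ T) T' * Pm g (ι q) ((U \ T) \ T')) := by
      rw [Finset.mul_sum, ← Finset.sum_neg_distrib]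
      refine Finset.sum_congr rfl fun T' hT' => ?_
      rw [Finset.mem_filter, Finset.mem_powerset] at hT'
      have hc : ((U \ T) \ T').card = m := by
        rw [Finset.card_sdiff_of_subset hT'.1, Finset.card_sdiff_of_subset hT.1, hU]
        have := Finset.card_le_card hT'.1
        rw [Finset.card_sdiff_of_subset hT.1, hU] at this
        omega
      have h6 : XX g (ι q) (fun k => ι (x k)) ((U \ T) \ T') = ι (XX g q x ((U \ T) \ T')) :=
        (Z_map ι g q ((U \ T) \ T') (fun _ k => x k)).symm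
      rw [h6, onepart hXF ℂ g hg q hq0 hq1 N' x ((U \ T) \ T') (Finset.card_pos.mp (by omega))
        (fun d hd hd' => by rw [hx, if_neg (by omega), if_neg (by omega)]), hc, hx,
        if_neg (by omega), if_pos rfl, map_mul, map_mul, Pm_map, qn_map, map_neg, map_one]
      ring
    rw [hin]
    ring
  rw [h5] at h2
  linear_combination h2

/-- the relations, `k ≥ 2`, over every ring -/
theorem rel2 (hXF : XFc) (hSPL : S_SPL) (hESZ : S_ESZ) (g : ℕ → ℕ) (hg : Monotone g)
    (N n : ℕ) (U : Finset ℕ) (hU : U.card = n) (hnN : n ≤ N) (a : n.Partition → Polynomial ℤ)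
    (ha : XX g (qq N) (xx N) U =
      ∑ μ : n.Partition, MvPolynomial.C (a μ) * (μ.parts.map (es (xx N))).prod)
    (m k : ℕ) (hm : 3 ≤ m) (hk : 2 ≤ k) (hn : n = m + k)
    {A : Type} [CommRing A] (ι : Polynomial ℤ →+* A) (y1 y2 : A) :
    Cf (fun μ => ι (a μ)) m (y1 + y2) (y1 * y2) +
      (y1 + y2) * Cf (fun μ => ι (a μ)) (m + 1) (y1 + y2) (y1 * y2) +
      y1 * y2 * Cf (fun μ => ι (a μ)) (m + 2) (y1 + y2) (y1 * y2) =
    qn (ι Polynomial.X) m * sk2 g (ι Polynomial.X) y1 y2 U k := by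
  obtain ⟨q, hq⟩ := exists_tr
  have hq0 : q ≠ 0 := by
    intro h
    have h1 : Polynomial.aeval q (Polynomial.X : Polynomial ℤ) =
        Polynomial.aeval q (0 : Polynomial ℤ) := by
      rw [Polynomial.aeval_X, map_zero, h]
    exact Polynomial.X_ne_zero (hq h1)
  have hq1 : q ≠ 1 := by
    intro h
    have h1 : Polynomial.aeval q (Polynomial.X : Polynomial ℤ) =
        Polynomial.aeval q (1 : Polynomial ℤ) := by
      rw [Polynomial.aeval_X, map_one, h]
    have h2 := congrArg (fun p : Polynomial ℤ => p.coeff 0) (hq h1)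
    simp at h2
  -- the universal case
  set B := MvPolynomial (Fin 2) (Polynomial ℤ) with hB
  set φ : Polynomial ℤ →+* ℂ := ((Polynomial.aeval q : Polynomial ℤ →ₐ[ℤ] ℂ) :
    Polynomial ℤ →+* ℂ) with hφ
  have hφX : φ Polynomial.X = q := Polynomial.aeval_X q
  have hinj : Function.Injective (MvPolynomial.map φ : B →+* MvPolynomial (Fin 2) ℂ) :=
    MvPolynomial.map_injective φ hq
  have huniv : Cf (fun μ => (MvPolynomial.C (a μ) : B)) m
        (MvPolynomial.X 0 + MvPolynomial.X 1) (MvPolynomial.X 0 * MvPolynomial.X 1) +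
      (MvPolynomial.X 0 + MvPolynomial.X 1) * Cf (fun μ => (MvPolynomial.C (a μ) : B)) (m + 1)
        (MvPolynomial.X 0 + MvPolynomial.X 1) (MvPolynomial.X 0 * MvPolynomial.X 1) +
      MvPolynomial.X 0 * MvPolynomial.X 1 * Cf (fun μ => (MvPolynomial.C (a μ) : B)) (m + 2)
        (MvPolynomial.X 0 + MvPolynomial.X 1) (MvPolynomial.X 0 * MvPolynomial.X 1) =
      qn (MvPolynomial.C Polynomial.X) m *
        sk2 g (MvPolynomial.C Polynomial.X) (MvPolynomial.X 0) (MvPolynomial.X 1) U k := by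
    apply hinj
    simp only [map_add, map_mul, Cf_map, qn_map, sk2_map, MvPolynomial.map_X,
      MvPolynomial.map_C, hφX]
    exact rel2C hXF hSPL hESZ g hg N n U hU hnN a ha m k hm hk hn q hq0 hq1
      (MvPolynomial.C : ℂ →+* MvPolynomial (Fin 2) ℂ) (MvPolynomial.X 0) (MvPolynomial.X 1)
  set θ : B →+* A := MvPolynomial.eval₂Hom ι ![y1, y2] with hθ
  have t0 : θ (MvPolynomial.X 0) = y1 := by
    rw [hθ, MvPolynomial.coe_eval₂Hom, MvPolynomial.eval₂_X]; rfl
  have t1 : θ (MvPolynomial.X 1) = y2 := by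
    rw [hθ, MvPolynomial.coe_eval₂Hom, MvPolynomial.eval₂_X]; rfl
  have tC : ∀ c, θ (MvPolynomial.C c) = ι c := fun c => by
    rw [hθ, MvPolynomial.coe_eval₂Hom, MvPolynomial.eval₂_C]
  have h := congrArg θ huniv
  simp only [map_add, map_mul, Cf_map, qn_map, sk2_map, t0, t1, tC] at h
  exact h

end Pool.Agent.HOOK
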