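import Pool.Agent.Lib.MP_263316_co.LV2.Spec
import Pool.Agent.Lib.MP_263316_co.HK2.REL2

/-!
MP_263316_co, project LV2, task REL3 (second version, from HK2/REL2).
-/

set_option autoImplicit false

namespace Pool.Agent.LV2

open Finset Pool.Agent.SWC Pool.Agent.SWK Pool.Agent.HOOK

theorem tREL3b (hXR : S_XR) (hP : S_PART3) (hESZ : S_ESZ) : S_REL3 := by
  intro g hg N n U hU hN a ha q hq0 hq1 m hm hmn α β
  obtain ⟨N', rfl⟩ : ∃ N', N = N' + 1 + 1 := ⟨N - 2, by omega⟩
  obtain ⟨x, hx⟩ := exists_alph N' m (by omega) (by omega)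
  set X' : Fin (N' + 1 + 1) → Polynomial ℂ := yal α β x with hX'
  set ψ : Polynomial ℤ →+* Polynomial ℂ :=
    Polynomial.C.comp (Polynomial.aeval q : Polynomial ℤ →ₐ[ℤ] ℂ).toRingHom with hψ
  have hψX : ψ Polynomial.X = Polynomial.C q := by
    rw [hψ]
    change Polynomial.C (Polynomial.aeval q Polynomial.X) = _
    rw [Polynomial.aeval_X]
  have h1 := eval_XX2 (N' + 1 + 1) g U ψ X' n a ha
  rw [hψX] at h1
  have h2 := congrArg (fun p => Polynomial.coeff p (n - m)) h1
  have hxe : ∀ d, es (fun k => (Polynomial.C (x k) : Polynomial ℂ)) d =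
      Polynomial.C (if d = 0 then 1 else if d = m then -1 else 0) := by
    intro d
    rw [← hx d]
    have := es_map (Polynomial.C : ℂ →+* Polynomial ℂ) x d
    exact this.symm
  have e1' : ∀ d, es X' (d + 2) = Polynomial.C (if d + 2 = m then -1 else 0) +
      Polynomial.C (α + β) * Polynomial.X *
        Polynomial.C (if d + 1 = m then -1 else 0) +
      Polynomial.C (α * β) * Polynomial.X ^ 2 *
        Polynomial.C (if d = 0 then 1 else if d = m then -1 else 0) := by
    intro d
    rw [hX']
    unfold yal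
    rw [es_cons2 hESZ, hxe, hxe, hxe, if_neg (show ¬ d + 2 = 0 by omega),
      if_neg (show ¬ d + 1 = 0 by omega)]
    rw [map_add, map_mul]
    ring
  have e1 : es X' 1 = Polynomial.C (α + β) * Polynomial.X := by
    rw [hX']
    unfold yal
    rw [es_cons2_one hESZ, es_zero2, hxe, if_neg (show ¬ (1 : ℕ) = 0 by omega),
      if_neg (show ¬ 1 = m by omega), map_zero, map_add]
    ring
  have e2 : es X' 2 = Polynomial.C (α * β) * Polynomial.X ^ 2 := by
    rw [show 2 = 0 + 2 from rfl, e1', if_neg (by omega), if_neg (by omega), if_pos rfl,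
      map_zero, map_one]
    ring
  have em0 : es X' m = -1 := by
    obtain ⟨m', rfl⟩ : ∃ m', m = m' + 2 := ⟨m - 2, by omega⟩
    rw [e1', if_pos rfl, if_neg (by omega), if_neg (by omega), if_neg (by omega)]
    simp only [map_zero, map_neg, map_one]
    ring
  have em1 : es X' (m + 1) = -(Polynomial.C (α + β) * Polynomial.X) := by
    obtain ⟨m', rfl⟩ : ∃ m', m = m' + 2 := ⟨m - 2, by omega⟩
    rw [show m' + 2 + 1 = m' + 1 + 2 from rfl, e1', if_neg (by omega), if_pos rfl,
      if_neg (by omega), if_neg (by omega)]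
    simp only [map_zero, map_neg, map_one]
    ring
  have em2 : es X' (m + 2) = -(Polynomial.C (α * β) * Polynomial.X ^ 2) := by
    rw [e1', if_neg (by omega), if_neg (by omega), if_neg (by omega), if_pos rfl]
    simp only [map_zero, map_neg, map_one]
    ring
  have e4 : ∀ d, 0 < d → d ≠ 1 → d ≠ 2 → d ≠ m → d ≠ m + 1 → d ≠ m + 2 → es X' d = 0 := by
    intro d h0 h01 h02 h1 h2 h3
    obtain ⟨d', rfl⟩ : ∃ d', d = d' + 2 := ⟨d - 2, by omega⟩
    rw [e1', if_neg (by omega), if_neg (by omega), if_neg (by omega), if_neg (by omega)]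
    simp only [map_zero, mul_zero, add_zero]
  have h3 := hP n m (n - m) hm (by omega) (α + β) (α * β) (es X') e1 e2 em0 em1 em2 e4
    (fun μ => Polynomial.aeval q (a μ))
  change (XX g (Polynomial.C q) X' U).coeff (n - m) =
    (∑ μ : n.Partition, Polynomial.C (Polynomial.aeval q (a μ)) *
      (μ.parts.map (es X')).prod).coeff (n - m) at h2
  rw [h3, hX', hXR g hg q hq0 hq1 N' x m (by omega) hx U (n - m) (by omega) α β] at h2
  linear_combination h2

end Pool.Agent.LV2
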